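import Pool.Agent.Helper85.PCP.All

/-!
# The Post correspondence problem is undecidable for four pairs of words
-/

namespace Pool.Agent.Results.MP_e4662f_lc.FourPairs

open PCP4

/-- `PCP(n)` is undecidable for every `n ≥ 4`, for words over `ℕ` (any finite alphabet) and for
binary words; and for every `n ≥ 1`, `n ≠ 2`, if `GPCP(n)` is undecidable then `PCP(n + 1)` is
undecidable. -/
theorem result :
    (∀ n : ℕ, 4 ≤ n →
      ¬ ComputablePred (fun I : Inst n ℕ => Pos I) ∧
      ¬ ComputablePred (fun I : Inst n Bool => Pos I)) ∧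
    (∀ n : ℕ, 1 ≤ n → n ≠ 2 →
      ¬ ComputablePred (fun J : GInst n ℕ => GPos J) →
      ¬ ComputablePred (fun I : Inst (n + 1) ℕ => Pos I)) :=
  ⟨fun n hn => ⟨all_RES.1 n hn, all_RES.2.1 n hn⟩, all_RES.2.2.1⟩

end Pool.Agent.Results.MP_e4662f_lc.FourPairs
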